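import Pool.Agent.H14.BR.Stm

/-!
# Crew BR (MP_9214e0_lc): parts KON and GST
-/

set_option autoImplicit false

namespace Pool.Agent.H36.BR

open ZFSet (pair)
open Pool.Agent.W868
open MeasureTheory H14.ES H46.RF H14.BR

theorem kon (hKO : S_KO1) (hW : H46.RF.S_WRD) : H14.BR.S_KON := by
  intro M hM T hT T' hT' hTt hTt' h r hr
  obtain ⟨-, -, hieq, hisub, -, hMW⟩ := hW
  obtain ⟨hini, -, -, -⟩ := hMW M hM
  by_contra hcon
  have hcon' : ∃ n, ini r n ∉ T' := by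
    by_contra hc
    push Not at hc
    exact hcon hc
  obtain ⟨n, hn⟩ := hcon'
  have hB := hM.base
  have hD : Dfn M M fun w : Fin 1 → ZFSet.{0} => w 0 ⊆ ini r n ∨ ini r n ⊆ w 0 :=
    (hB.subset' (DfnF.proj _) (DfnF.const (hini r n))).or
      (hB.subset' (DfnF.const (hini r n)) (DfnF.proj _))
  have hT1 := hM.sep_mem (Q := fun z => z ⊆ ini r n ∨ ini r n ⊆ z) hD hT
  set T1 : ZFSet.{0} := ZFSet.sep (fun z => z ⊆ ini r n ∨ ini r n ⊆ z) T with hT1def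
  have hmem : ∀ z, z ∈ T1 ↔ z ∈ T ∧ (z ⊆ ini r n ∨ ini r n ⊆ z) := fun z => by
    rw [hT1def, ZFSet.mem_sep]
  have htree : IsTree T1 := by
    refine ⟨fun z hz => hTt.word z ((hmem z).1 hz).1, ?_⟩
    intro s m hs
    obtain ⟨h1, h2⟩ := (hmem _).1 hs
    refine (hmem _).2 ⟨hTt.down s m h1, ?_⟩
    rcases h2 with h2 | h2
    · left
      rw [hisub] at h2 ⊢
      exact ⟨by omega, fun i hi => h2.2 i (by omega)⟩
    · rw [hisub] at h2
      by_cases hnm : n ≤ m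
      · right
        rw [hisub]
        exact ⟨hnm, h2.2⟩
      · left
        rw [hisub]
        exact ⟨by omega, fun i hi => (h2.2 i (by omega)).symm⟩
  have hrT1 : r ∈ body T1 := by
    intro m
    refine (hmem _).2 ⟨hr m, ?_⟩
    rcases le_total m n with h1 | h1
    · left
      rw [hisub]
      exact ⟨h1, fun _ _ => rfl⟩
    · right
      rw [hisub]
      exact ⟨h1, fun _ _ => rfl⟩
  obtain ⟨s, hs, hsM⟩ := hKO M hM T1 hT1 htree ⟨r, hrT1⟩
  have hsT : s ∈ body T := fun m => ((hmem _).1 (hs m)).1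
  have hsT' := h s hsT hsM n
  have h3 := ((hmem _).1 (hs n)).2
  have h4 : ini s n = ini r n := by
    rw [hieq]
    refine ⟨rfl, ?_⟩
    rcases h3 with h3 | h3
    · rw [hisub] at h3
      exact h3.2
    · rw [hisub] at h3
      exact fun i hi => (h3.2 i hi).symm
  rw [h4] at hsT'
  exact hn hsT'

theorem gst (hCLO : S_CLO) (hNU1 : S_NU1) (hNU2 : S_NU2) (hKON : S_KON) (hPMD : S_PMD)
    (hOPH : S_OPH) (hZRL : S_ZRL) : H14.BR.S_GST := by
  intro M hMC G hG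
  have hM : IsZF M := hMC.toIsZF
  have hB := hM.base
  obtain ⟨h, hh, hIsB⟩ := hOPH M hM
  obtain ⟨Q, hQ, hQ'⟩ := hPMD M hM
  have hInj : Function.Injective zr := hZRL.2.1
  -- the closed set of `T`
  have hIns : ∀ T ∈ M, ∀ b, Ins M T b ↔ h T ⊆ b := by
    intro T hT b
    constructor
    · intro h1 x hx
      obtain ⟨s, hs, rfl, hsM⟩ := (hIsB T hT x).1 hx
      exact h1 s hs hsM
    · intro h1 s hs hsM
      exact h1 ((hIsB T hT _).2 ⟨s, hs, rfl, hsM⟩)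
  have hRnd : ∀ T ∈ P M, h T ∈ Rnd M := by
    intro T hT
    exact ⟨hCLO M hM T hT.1 hT.2.1 _ (hIsB T hT.1),
      hNU1 M hM T hT _ ((hIns T hT.1 _).2 (fun _ hx => hx))⟩
  refine ⟨fun b hb => hb.1, ?_, ?_, ?_, ?_⟩
  · obtain ⟨T, hT⟩ := hG.nonempty
    have hTP := hG.sub hT
    exact ⟨h T, hRnd T hTP, T, hT, (hIns T hTP.1 _).2 (fun _ hx => hx)⟩
  · rintro b ⟨-, T, hT, hTb⟩ c hc hbc
    exact ⟨hc, T, hT, fun s hs hsM => hbc (hTb s hs hsM)⟩
  · rintro b ⟨-, T, hT, hTb⟩ c ⟨-, T', hT', hTc⟩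
    obtain ⟨U, hU, hUT, hUT'⟩ := hG.dir T hT T' hT'
    have hUP := hG.sub hU
    refine ⟨h U, ⟨hRnd U hUP, U, hU, (hIns U hUP.1 _).2 (fun _ hx => hx)⟩, ?_, ?_⟩
    · rw [← hIns U hUP.1]
      intro s hs hsM
      exact hTb s (fun n => hUT (hs n)) hsM
    · rw [← hIns U hUP.1]
      intro s hs hsM
      exact hTc s (fun n => hUT' (hs n)) hsM
  · intro D hD hDR hDd
    have hdef : Dfn M M fun w : Fin 1 → ZFSet.{0} => ∃ b ∈ D, h (w 0) ⊆ b := by
      apply hB.bex (DfnF.const hD)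
      exact hB.subset' (DfnF.comp1 hh (DfnF.proj (1 : Fin 2))) (DfnF.proj (0 : Fin 2))
    have hD' := hM.sep_mem (Q := fun T => ∃ b ∈ D, h T ⊆ b) hdef hQ
    set D' : ZFSet.{0} := ZFSet.sep (fun T => ∃ b ∈ D, h T ⊆ b) Q with hD'def
    have hmem : ∀ T, T ∈ D' ↔ T ∈ P M ∧ ∃ b ∈ D, h T ⊆ b := fun T => by
      rw [hD'def, ZFSet.mem_sep, hQ']
    obtain ⟨T, hTD, hTG⟩ := hG.meet D' hD' (fun T hT => ((hmem T).1 hT).1) (by
      intro S hS
      obtain ⟨b, hbD, hbS⟩ := hDd (h S) (hRnd S hS)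
      obtain ⟨T', hT', hTb⟩ := hNU2 M hMC b (hDR b hbD)
      have hsub : body T' ⊆ body S := by
        apply hKON M hM T' hT'.1 S hS.1 hT'.2.1 hS.2.1
        intro s hs hsM
        obtain ⟨s', hs', h1, -⟩ := (hIsB S hS.1 _).1 (hbS (hTb s hs hsM))
        rw [hInj h1]
        exact hs'
      have hint : ZFSet.sep (fun z => z ∈ S) T' ∈ M :=
        hM.sep_mem (Q := fun z => z ∈ S) (Dfn.mem (DfnF.proj _) (DfnF.const hS.1)) hT'.1
      set T2 : ZFSet.{0} := ZFSet.sep (fun z => z ∈ S) T' with hT2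
      have hmem2 : ∀ z, z ∈ T2 ↔ z ∈ T' ∧ z ∈ S := fun z => by rw [hT2, ZFSet.mem_sep]
      have hbody : body T2 = body T' := by
        ext s
        constructor
        · intro hs n
          exact ((hmem2 _).1 (hs n)).1
        · intro hs n
          exact (hmem2 _).2 ⟨hs n, hsub hs n⟩
      have hT2P : T2 ∈ P M := by
        refine ⟨hint, ⟨fun z hz => hT'.2.1.word z ((hmem2 z).1 hz).1, ?_⟩, ?_⟩
        · intro r n hn
          obtain ⟨h1, h2⟩ := (hmem2 _).1 hn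
          exact (hmem2 _).2 ⟨hT'.2.1.down r n h1, hS.2.1.down r n h2⟩
        · rw [hbody]
          exact hT'.2.2
      refine ⟨T2, (hmem T2).2 ⟨hT2P, b, hbD, ?_⟩, fun z hz => ((hmem2 z).1 hz).2⟩
      rw [← hIns T2 hint]
      intro s hs hsM
      rw [hbody] at hs
      exact hTb s hs hsM)
    obtain ⟨hTP, b, hbD, hTb⟩ := (hmem T).1 hTD
    exact ⟨b, hbD, hDR b hbD, T, hTG, (hIns T hTP.1 b).2 hTb⟩

end Pool.Agent.H36.BR
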